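import Mathlib

/-!
# Families of maps: stable subspaces, purity, continuity
-/

namespace Pool.Agent.W5h89.MTQ

open NumberField Polynomial

/-- `σ` is a Frobenius element at the prime number `q`: there is a maximal ideal `Q` with `q ∈ Q` of
the ring of all algebraic integers such that `σ x ≡ x ^ q` modulo `Q` for all `x`. -/
def IsFrobenius (q : ℕ) (σ : Gal(AlgebraicClosure ℚ/ℚ)) : Prop :=
  ∃ Q : Ideal (𝓞 (AlgebraicClosure ℚ)), Q.IsMaximal ∧ (q : 𝓞 (AlgebraicClosure ℚ)) ∈ Q ∧
    ∀ x : 𝓞 (AlgebraicClosure ℚ), σ • x - x ^ q ∈ Q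

variable {K M Γ : Type*} [Field K] [AddCommGroup M] [Module K M]

/-- The element `x` is a linear combination with coefficients in `K` of elements of `S`. -/
def InSpan (K : Type*) {M : Type*} [Field K] [AddCommGroup M] [Module K M] (S : Set M) (x : M) :
    Prop := x ∈ Submodule.span K S

/-- The dimension over `K` of the space spanned by `S`. -/
noncomputable def dimSpan (K : Type*) {M : Type*} [Field K] [AddCommGroup M] [Module K M]
    (S : Set M) : ℕ := Module.finrank K (Submodule.span K S)

/-- The subspace `V` is stable under the maps `e g`. -/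
def Stable (e : Γ → M → M) (V : Submodule K M) : Prop := ∀ g, ∀ x ∈ V, e g x ∈ V

/-- The subspace `G` is semisimple: every subspace of `G` which is stable under the maps `e g` has a
stable complement. -/
def Semisimple (e : Γ → M → M) (G : Submodule K M) : Prop :=
  ∀ V ≤ G, Stable e V → ∃ V' : Submodule K M, Stable e V' ∧ V ⊓ V' = ⊥ ∧ V ⊔ V' = G

/-- On the subspace `G` the linear map `f` is annihilated by a monic polynomial with integral
coefficients all of whose complex roots have the absolute value `√(q ^ i)`. -/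
def PureOn (f : M → M) (G : Submodule K M) (q i : ℕ) : Prop :=
  ∃ P : ℤ[X], P.Monic ∧ (∀ z : ℂ, aeval z P = 0 → ‖z‖ ^ 2 = (q : ℝ) ^ i) ∧
    ∀ x ∈ G, (P.sum fun n a => a • f^[n] x) = 0

/-- The coefficients of the linear maps `e g` are continuous functions of `g`, for the identification
`ι` of the coefficient field with the field of `ℓ`-adic numbers. -/
def ContinuousFor {ℓ : ℕ} [Fact ℓ.Prime] (ι : K ≃+* ℚ_[ℓ]) [TopologicalSpace Γ]
    (e : Γ → M → M) : Prop :=
  ∀ (φ : M →ₗ[K] K) (x : M), Continuous fun g => ι (φ (e g x))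

end Pool.Agent.W5h89.MTQ
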