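import Pool.Agent.W5h89.MTZ.Defs
import Pool.Agent.W5h89.MTQ.Rep

/-!
# Galois actions over the rational numbers, and semisimplicity: definitions
-/

open CategoryTheory AlgebraicGeometry

universe u v

namespace Pool.Agent.W5h89.MTQ

open Pool.Agent.H914 Pool.Agent.Y121.AHS
open Pool.Agent.W5h89.MTZ (GaloisAction IsTate)

variable {k : Type u} [Field k] {𝒱 : VarClass k} {ops : CycleOps 𝒱} {T : HodgeTheory ops}
  {L : Type} [Field L] [Algebra T.W.K L] {Γ : Type v} [Group Γ]

/-- The dimension over `L` of the space spanned by the Tate classes of all degrees. -/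
noncomputable def tateDim (A : GaloisAction T L Γ) (X : 𝒱.Obj) : ℕ :=
  dimSpan L {x : HL T.W L X | ∃ j, IsTate A X j x}

/-- The action of the elements of the group on the cohomology of `X` (linear maps). -/
def on (A : GaloisAction T L Γ) (X : 𝒱.Obj) (g : Γ) : HL T.W L X → HL T.W L X := (A.act g).e X

/-- The action on the Tate twist. -/
def tw (A : GaloisAction T L Γ) (g : Γ) : L := (A.act g).c

/-- The action of the group on `H^i(X)` is semisimple: every stable subspace has a stable
complement. -/
def SemisimpleIn (A : GaloisAction T L Γ) (X : 𝒱.Obj) (i : ℕ) : Prop :=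
  Semisimple (on A X) (grL T.W L X i)

/-- The action `A` has the following properties of the action on `ℓ`-adic cohomology of varieties
over `ℚ`; there `θ` is an isomorphism of the absolute Galois group of `ℚ` with `Γ`, in general it is
a homomorphism with image of finite index. The coefficient field is identified with the field of
`ℓ`-adic numbers by `ι`. The character `tw` (by which the elements act on the Tate twist) and the
action are continuous. For every variety `X` and all large prime numbers `q`, the inverse `σ⁻¹`
of a Frobenius element `σ` at `q` satisfies `tw σ⁻¹ = q` and is pure of weight `i` on `H^i(X)`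
(Deligne): it is annihilated by a monic polynomial with integral coefficients all of whose complex
roots have absolute value `√(q ^ i)`. -/
structure IsEllAdic {ℓ : ℕ} [Fact ℓ.Prime] (ι : L ≃+* ℚ_[ℓ])
    (θ : Gal(AlgebraicClosure ℚ/ℚ) →* Γ) (A : GaloisAction T L Γ) : Prop where
  range : θ.range.FiniteIndex
  mul : ∀ g h, tw A (g * h) = tw A g * tw A h
  cont_tw : Continuous fun g => ι (tw A (θ g))
  cont : ∀ X, ContinuousFor ι fun g => on A X (θ g)
  frob : ∀ X i, ∃ B, ∀ q σ, B < q → q.Prime → IsFrobenius q σ →
    tw A (θ σ⁻¹) = q ∧ PureOn (on A X (θ σ⁻¹)) (grL T.W L X i) q i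

/-- The action is the action on `ℓ`-adic cohomology of varieties over `ℚ` for some prime number `ℓ`
(or it has the formal properties of this action). -/
def IsOverQ (A : GaloisAction T L Γ) : Prop :=
  ∃ (ℓ : ℕ) (_ : Fact ℓ.Prime) (ι : L ≃+* ℚ_[ℓ]) (θ : Gal(AlgebraicClosure ℚ/ℚ) →* Γ),
    IsEllAdic ι θ A

end Pool.Agent.W5h89.MTQ
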