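import Pool.Agent.W5h89.MTQ.MDefs
import Pool.Agent.W5h89.MTQ.CDefs
import Pool.Agent.W5h89.MTZ.VConv
import Pool.Agent.W5h89.SSQ.Main
import Pool.Agent.W5h89.SSE.Eff

/-!
# Semisimplicity over the rational numbers
-/

open CategoryTheory AlgebraicGeometry TensorProduct Filter Topology

universe u v

namespace Pool.Agent.W5h89.MTQ

open Module
open Pool.Agent.H914 Pool.Agent.H914.VarClass Pool.Agent.H914.VarClass.Obj
  Pool.Agent.H914.WeilCohomology
open Pool.Agent.Y121 Pool.Agent.Y121.AHS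
open Pool.Agent.Y133.Half (pw ClassPred Sys)
open Pool.Agent.W5h89
open Pool.Agent.W5h89.MTZ hiding TateIsMotivic TateIsHodgeTate tateDim

variable {k : Type u} [Field k] {𝒱 : VarClass k} {ops : CycleOps 𝒱} {T : HodgeTheory ops}
  {L : Type} [Field L] [Algebra T.W.K L] {Γ : Type v} [Group Γ]

lemma e_add (A : GaloisAction T L Γ) (X : 𝒱.Obj) (g : Γ) (x y : HL T.W L X) :
    (A.act g).e X (x + y) = (A.act g).e X x + (A.act g).e X y := ((A.act g).iso X).2.1 x y

lemma e_smul (A : GaloisAction T L Γ) (X : 𝒱.Obj) (g : Γ) (r : L) (x : HL T.W L X) :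
    (A.act g).e X (r • x) = r • (A.act g).e X x := by
  have h := (A.act g).semi X r x
  rw [A.linear g r] at h
  exact h

lemma pureOn_iff {K M : Type*} [Field K] [AddCommGroup M] [Module K M] (T : M →ₗ[K] M)
    (G : Submodule K M) (q i : ℕ) : PureOn T G q i ↔ SSQ.PureOn T G q i := by
  have h : ∀ (P : Polynomial ℤ) (x : M), (P.sum fun n a => a • (⇑T)^[n] x) =
      Polynomial.aeval T P x := by
    intro P x
    rw [Polynomial.aeval_eq_sum_range, Polynomial.sum_over_range P (f := fun n a => a • (⇑T)^[n] x)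
      (fun n => zero_smul ℤ _), LinearMap.sum_apply]
    refine Finset.sum_congr rfl fun n _ => ?_
    rw [LinearMap.smul_apply, Module.End.pow_apply]
  constructor
  · rintro ⟨P, h1, h2, h3⟩
    exact ⟨P, h1, h2, fun x hx => (h P x).symm.trans (h3 x hx)⟩
  · rintro ⟨P, h1, h2, h3⟩
    exact ⟨P, h1, h2, fun x hx => (h P x).trans (h3 x hx)⟩

/-- The conversion of the actions. -/
noncomputable def toS (A : GaloisAction T L Γ) :
    SSP.GaloisAction (baseW (toH T).W L).toWeilData Γ where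
  e g X x := (toC (A.act g)).e X x
  c g := (A.act g).c
  ne g := (A.act g).ne
  act X :=
    { one := fun x => A.one X x
      mul := fun g h x => A.mul g h X x
      add := fun g x y => e_add A X g x y
      smul := fun g r x => e_smul A X g r x
      ring := fun g x y => map_mul ((toC (A.act g)).e X) x y }
  gr g X i x hx := (toC (A.act g)).gr.2 hx
  nat g X Y f y := (toC (A.act g)).nat f y
  cyc g X j z hz := (toC (A.act g)).cyc hz
  tr g X x := by
    have h := (toC (A.act g)).tr X x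
    have h2 : ∀ l, (toC (A.act g)).s l = l := A.linear g
    rw [h2] at h
    exact h

/-- The action as an action on a Weil cohomology theory. -/
noncomputable abbrev B (A : GaloisAction T L Γ) : SSD.GaloisAction (baseW (toH T).W L) Γ :=
  SSP.toG (toS A)

lemma isTate_iff_B (A : GaloisAction T L Γ) (X : 𝒱.Obj) (j : ℕ) (x : (baseW (toH T).W L).H X) :
    (SSD.tPred (B A)).P X j x ↔ (tPred (toA A)).P X j x := Iff.rfl

variable {ℓ : ℕ} [Fact ℓ.Prime] {ι : L ≃+* ℚ_[ℓ]} {θ : Gal(AlgebraicClosure ℚ/ℚ) →* Γ}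
  {A : GaloisAction T L Γ} {X : 𝒱.Obj}

lemma isEllAdic_toS (hA : IsEllAdic ι θ A) :
    SSQ.IsEllAdic (D := (baseW (toH T).W L).toWeilData) ι θ (toS A) where
  range := hA.range
  mul := hA.mul
  cont_c := hA.cont_tw
  cont := hA.cont
  frob X i := by
    obtain ⟨B, hB⟩ := hA.frob X i
    refine ⟨B, fun q σ h1 h2 h3 => ⟨(hB q σ h1 h2 h3).1, ?_⟩⟩
    exact (pureOn_iff _ _ _ _).1 (hB q σ h1 h2 h3).2

lemma cycDet (hA : IsEllAdic ι θ A) (X : 𝒱.Obj) : SSE.CycDet (B A) X :=
  fun _ _ hVi hV => SSQ.exists_sq (isEllAdic_toS hA) hVi hV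

/-- The intersection form is nondegenerate on the Tate classes, if they are linear combinations of
rational classes from a system on which the form is nondegenerate. -/
lemma num_bot (A : GaloisAction T L Γ) {Q : ClassPred (toH T).W} {Z : 𝒱.Obj}
    (hQ : Sys.Nondeg Q.sys Z) (hle : (Q.sys.base L).C Z ≤ (tPred (toA A)).sys.C Z)
    (h : ∀ j x, (tPred (toA A)).P Z j x → x ∈ Submodule.span (baseW (toH T).W L).K
      {y | ∃ c, Q.P Z j c ∧ AH.em (toH T).W L c = y}) :
    (SSD.tPred (B A)).sys.Num Z = ⊥ := by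
  have h1 : (SSD.tPred (B A)).sys.C Z ≤ (Q.sys.base L).C Z := by
    intro x hx
    refine ClassPred.sp_ind (Q := SSD.tPred (B A)) (q := fun x => x ∈ (Q.sys.base L).C Z)
      ?_ ?_ ?_ hx
    · intro j x hx
      refine Submodule.span_le.2 ?_ (h j x hx)
      rintro y ⟨c, hc, rfl⟩
      exact Submodule.tmul_mem_baseChange_of_mem (1 : L) (ClassPred.sp_of (Q := Q) hc)
    · exact Submodule.zero_mem _
    · intro x y hx hy
      exact Submodule.add_mem _ hx hy
  have h2 : (tPred (toA A)).sys.C Z ≤ (SSD.tPred (B A)).sys.C Z := by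
    intro x hx
    refine ClassPred.sp_ind (Q := tPred (toA A))
      (q := fun x => x ∈ (SSD.tPred (B A)).sys.C Z) ?_ ?_ ?_ hx
    · intro j x hx
      exact ClassPred.sp_of (Q := SSD.tPred (B A)) ((isTate_iff_B A Z j x).2 hx)
    · exact Submodule.zero_mem _
    · intro x y hx hy
      exact Submodule.add_mem _ hx hy
  rw [Submodule.eq_bot_iff]
  rintro x ⟨hx, hxy⟩
  exact hQ.base L x (h1 hx) fun y hy => hxy y (h2 (hle hy))

/-- **Semisimplicity.** -/
theorem semisimple_of_num (hA : IsEllAdic ι θ A)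
    (h : ∀ n, (SSD.tPred (B A)).sys.Num (pw X n) = ⊥) (n i : ℕ) :
    SemisimpleIn A (pw X n) i := by
  have h1 : ∀ m, (SSD.tPred (B A)).sys.Num (pw (pw X n) m) = ⊥ := by
    intro m
    obtain ⟨N, ⟨θ⟩⟩ := SSD.exists_iso_pw X n m
    exact SSD.num_iso θ (h N)
  exact SSE.semisimple_eff (cycDet hA (pw X n)) le_rfl (h1 _)

/-- The first case of the law for motivic classes. -/
theorem semisimple_mot {M : ∀ X : 𝒱.Obj, ℕ → T.W.H X → Prop} (hL : Nonempty (L →+* ℂ))
    (hM : AreTate M A) (hA : IsEllAdic ι θ A)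
    (h : ∀ n j, TateIsMotivic M A (pw X n) j) (n i : ℕ) : SemisimpleIn A (pw X n) i := by
  obtain ⟨τ⟩ := hL
  have hi : (⟨L, Γ, toA A, τ⟩ : BAct.{u, v} (toH T)) ∈ actS M := ⟨L, _, _, Γ, _, A, τ, hM, rfl⟩
  refine semisimple_of_num hA (fun n => ?_) n i
  refine num_bot A (Q := ePred (actS.{u, v} M)) (ePred_nondeg _)
    ((ePred_base_le hi _).trans (cPred_base_le' (toA A) _)) fun j x hx => ?_
  refine Submodule.span_mono ?_ (h n j x hx)
  rintro y ⟨c, hc, rfl⟩
  exact ⟨c, (isMotivic_iff M _ j c).1 hc, rfl⟩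

/-- The first case of the law for common classes. -/
theorem semisimple_common (hA : IsEllAdic ι θ A)
    (h : ∀ n j, TateIsHodgeTate A (pw X n) j) (n i : ℕ) : SemisimpleIn A (pw X n) i := by
  refine semisimple_of_num hA (fun n => ?_) n i
  exact num_bot A (Q := cPred (toA A)) (cPred_nondeg _ _) (cPred_base_le' (toA A) _)
    fun j x hx => h n j x hx

/-- **The law for motivic classes.** -/
theorem law_mot (M : ∀ X : 𝒱.Obj, ℕ → T.W.H X → Prop) (hL : Nonempty (L →+* ℂ))
    (A : GaloisAction T L Γ) (hM : AreTate M A) (X : 𝒱.Obj) :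
    ((∀ n j, TateIsMotivic M A (pw X n) j) ∧
        (IsOverQ A → ∀ n i, SemisimpleIn A (pw X n) i)) ∨
      RatioToZero (fun n => motDim.{u, v} M (pw X n)) fun n => tateDim A (pw X n) := by
  rcases law_tate_mot M hL A hM X with h | h
  · exact Or.inl ⟨h, fun ⟨_, _, _, _, hQ⟩ n i => semisimple_mot hL hM hQ h n i⟩
  · exact Or.inr h

/-- **The law for common classes.** -/
theorem law_common (hL : Nonempty (L →+* ℂ)) (A : GaloisAction T L Γ) (X : 𝒱.Obj) :
    ((∀ n j, TateIsHodgeTate A (pw X n) j) ∧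
        (IsOverQ A → ∀ n i, SemisimpleIn A (pw X n) i)) ∨
      RatioToZero (fun n => hodgeTateDim A (pw X n)) fun n => tateDim A (pw X n) := by
  rcases law_tate' hL A X with h | h
  · exact Or.inl ⟨h, fun ⟨_, _, _, _, hQ⟩ n i => semisimple_common hQ h n i⟩
  · exact Or.inr h

end Pool.Agent.W5h89.MTQ
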