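import Pool.Agent.W5h89.MTZ.VDefs
import Pool.Agent.W5h89.MTQ.Defs

/-!
# Tate classes and motivic classes: definitions
-/

open CategoryTheory AlgebraicGeometry

universe u v

namespace Pool.Agent.W5h89.MTQ

open Pool.Agent.H914 Pool.Agent.Y121.AHS
open Pool.Agent.W5h89.MTZ (GaloisAction IsTate IsMotivic)

variable {k : Type u} [Field k] {𝒱 : VarClass k} {ops : CycleOps 𝒱} {T : HodgeTheory ops}

/-- Every Tate class of degree `2 j` is a linear combination, with coefficients in `L`, of motivic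
classes of degree `2 j`. -/
def TateIsMotivic (M : ∀ X : 𝒱.Obj, ℕ → T.W.H X → Prop) {L : Type} [Field L] [Algebra T.W.K L]
    {Γ : Type v} [Group Γ] (A : GaloisAction T L Γ) (X : 𝒱.Obj) (j : ℕ) : Prop :=
  ∀ x, IsTate A X j x → InSpan L {y | ∃ c, IsMotivic.{u, v} M X j c ∧ emL T.W L c = y} x

end Pool.Agent.W5h89.MTQ
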